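import Pool.Agent.BLP.StmtsA

/-!
# BLP, row A_ENA: additivity of the energy
-/

namespace Pool.Agent.BLP.H62

open MeasureTheory ProbabilityTheory Filter Topology Finset
open scoped ENNReal

noncomputable section

theorem a_ena : EnaStmt := by
  intro b τ m n
  refine ⟨?_, ?_, ?_⟩
  · intro k h1 h2
    unfold En
    rw [← Finset.sum_union]
    · apply Finset.sum_congr _ (fun _ _ => rfl)
      ext r
      simp only [Finset.mem_union, Finset.mem_Icc]
      omega
    · rw [Finset.disjoint_left]
      intro r hr hr'
      simp only [Finset.mem_Icc] at hr hr'
      omega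
  · unfold En
    rw [Finset.Icc_self, Finset.sum_singleton]
  · intro σ h
    unfold En
    apply Finset.sum_congr rfl
    intro r hr
    simp only [Finset.mem_Icc] at hr
    rw [h r (by omega) (by omega), h (r - 1) (by omega) (by omega)]

end

end Pool.Agent.BLP.H62
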