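import Pool.Agent.BLP.StmtsM

/-!
# BLP, row M_LL1: the law of large numbers in `L¹`
-/

namespace Pool.Agent.BLP.H62

open MeasureTheory ProbabilityTheory Filter Topology Finset
open scoped ENNReal

noncomputable section

theorem abs_eq (z : ℝ) : |z| = z + 2 * max (-z) 0 := by
  rcases le_total 0 z with h | h
  · rw [abs_of_nonneg h, max_eq_right (by linarith)]
    ring
  · rw [abs_of_nonpos h, max_eq_left (by linarith)]
    ring

theorem m_ll1 (hlow : LowStmt) (hint : IntStmt) : Ll1Stmt := by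
  intro X _ μ B hS c hc
  have := hS.prob
  have key : ∀ n : ℕ, ∫ x, |L (B x) 0 0 ((n : ℤ) - 1) n / n - c| ∂μ =
      (gg μ B n / n - c) + 2 * ∫ x, max (c - L (B x) 0 0 ((n : ℤ) - 1) n / n) 0 ∂μ := by
    intro n
    have h1 : Integrable (fun x => L (B x) 0 0 ((n : ℤ) - 1) n) μ :=
      (hint X μ B hS 0 0 ((n : ℤ) - 1) n).integrable (by norm_num)
    have h2 : Integrable (fun x => L (B x) 0 0 ((n : ℤ) - 1) n / n) μ := h1.div_const _
    have h3 : Integrable (fun x => L (B x) 0 0 ((n : ℤ) - 1) n / n - c) μ :=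
      h2.sub (integrable_const c)
    have h4 : Integrable (fun x => max (c - L (B x) 0 0 ((n : ℤ) - 1) n / n) 0) μ := by
      have h5 : Integrable (fun x => c - L (B x) 0 0 ((n : ℤ) - 1) n / n) μ :=
        (integrable_const c).sub h2
      exact h5.pos_part
    have h5 : ∀ x, |L (B x) 0 0 ((n : ℤ) - 1) n / n - c| =
        (L (B x) 0 0 ((n : ℤ) - 1) n / n - c) +
          2 * max (c - L (B x) 0 0 ((n : ℤ) - 1) n / n) 0 := by
      intro x
      rw [abs_eq, neg_sub]
    calc ∫ x, |L (B x) 0 0 ((n : ℤ) - 1) n / n - c| ∂μ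
        = ∫ x, ((L (B x) 0 0 ((n : ℤ) - 1) n / n - c) +
          2 * max (c - L (B x) 0 0 ((n : ℤ) - 1) n / n) 0) ∂μ :=
          integral_congr_ae (Eventually.of_forall h5)
      _ = ∫ x, (L (B x) 0 0 ((n : ℤ) - 1) n / n - c) ∂μ +
          ∫ x, 2 * max (c - L (B x) 0 0 ((n : ℤ) - 1) n / n) 0 ∂μ :=
          integral_add h3 (h4.const_mul 2)
      _ = (gg μ B n / n - c) + 2 * ∫ x, max (c - L (B x) 0 0 ((n : ℤ) - 1) n / n) 0 ∂μ := by
          rw [integral_sub h2 (integrable_const c), integral_div, integral_const_mul,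
            integral_const]
          simp only [probReal_univ, one_smul]
          rfl
  have h1 : Tendsto (fun n : ℕ => (gg μ B n / n - c) +
      2 * ∫ x, max (c - L (B x) 0 0 ((n : ℤ) - 1) n / n) 0 ∂μ) atTop (𝓝 ((c - c) + 2 * 0)) :=
    (hc.sub_const c).add ((hlow X μ B hS c hc).const_mul 2)
  rw [sub_self, mul_zero, add_zero] at h1
  exact h1.congr fun n => (key n).symm

end

end Pool.Agent.BLP.H62
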